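import Pool.Agent.U79.GZ.Stm3
import Pool.Agent.U978.GZ.ASY

/-!
# Project GZ (helper79), package ASYK (helper44): the asymptotic analysis, exact distribution

A port of `Pool/Agent/U978/GZ/ASY.lean` (helper978).
-/

set_option autoImplicit false
set_option linter.unusedVariables false

open scoped Classical
open Finset Filter

namespace Pool.Agent.U44.GZ

open Pool.Agent.Y703.CX (sm la jj XX eL zz kk S_SIE eL_tendsto logX_eq rpow_eL HH NN ev_eL one_le_exp
  HH_ge HH_le HH_pos kk_ge kk_le X_pos one_add_log lin_le kap zz_ge zz_pos kap_nonneg kap_pow kap_le)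
open Pool.Agent.Y703.CQ (nr Sml sml_of sml_add sml_rpow cmp)
open Pool.Agent.U115.GD (S_MER S_CHE)
open Pool.Agent.U79.GY (Cfg Ok Hc Sp In Cl SS da db dl s4 CntP)
open Pool.Agent.U79.GZ
open Pool.Agent.U978.GZ (sml_many sml_cut sml_coll sml_main out_sub dl_pos eta_mem)

theorem ak_nonneg (k : ℕ) : 0 ≤ ak k := by
  unfold ak
  refine Finset.prod_nonneg fun i _ => ?_
  have h : (1 : ℝ) ≤ 2 ^ (i + 1) := one_le_pow₀ (by norm_num)
  exact div_nonneg zero_le_one (by linarith)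

theorem ak_succ (k : ℕ) : ak (k + 1) = ak k * (1 / ((2 : ℝ) ^ (k + 1) - 1)) := by
  unfold ak
  rw [Finset.prod_range_succ]

theorem ak_bound (t : ℕ) : (2 : ℝ) ^ t * ak t ^ 2 ≤ 2 := by
  rcases t with _ | t
  · simp [ak]
  · induction t with
    | zero => simp [ak]; norm_num
    | succ n ih =>
      refine le_trans ?_ ih
      rw [ak_succ (n + 1)]
      have h4 : (4 : ℝ) ≤ 2 ^ (n + 1 + 1) := by
        calc (4 : ℝ) = 2 ^ 2 := by norm_num
          _ ≤ 2 ^ (n + 1 + 1) := pow_le_pow_right₀ (by norm_num) (by omega)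
      have h3 : (3 : ℝ) ≤ 2 ^ (n + 1 + 1) - 1 := by linarith
      have h5 : 1 / ((2 : ℝ) ^ (n + 1 + 1) - 1) ≤ 1 / 3 :=
        one_div_le_one_div_of_le (by norm_num) h3
      have h6 : 0 ≤ 1 / ((2 : ℝ) ^ (n + 1 + 1) - 1) := by 
        apply div_nonneg zero_le_one
        linarith
      have h7 : (1 / ((2 : ℝ) ^ (n + 1 + 1) - 1)) ^ 2 ≤ (1 / 3) ^ 2 := by gcongr
      have h8 : 0 ≤ (2 : ℝ) ^ (n + 1) * ak (n + 1) ^ 2 := by positivity
      calc (2 : ℝ) ^ (n + 1 + 1) * (ak (n + 1) * (1 / ((2 : ℝ) ^ (n + 1 + 1) - 1))) ^ 2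
          = (2 : ℝ) ^ (n + 1) * ak (n + 1) ^ 2 *
            (2 * (1 / ((2 : ℝ) ^ (n + 1 + 1) - 1)) ^ 2) := by ring
        _ ≤ (2 : ℝ) ^ (n + 1) * ak (n + 1) ^ 2 * 1 := by
            apply mul_le_mul_of_nonneg_left _ h8
            nlinarith
        _ = _ := mul_one _

theorem et_mem (h : S_LIM) (t : ℕ) : et t ∈ Set.Icc (0 : ℝ) 1 := by
  have h1 := eta_mem.1
  have h2 := h.2.2
  have h3 := ak_bound t
  have h4 : 0 ≤ (2 : ℝ) ^ t * ak t ^ 2 := by positivity
  unfold et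
  constructor
  · exact mul_nonneg h4 h1
  · nlinarith

theorem t_ASYK : S_ASYK := by
  intro hkeyc hC hS hB hF hF' hM hCh hLo hLim G γ Z f R t hO hGa hHal hr hR
  have het := et_mem hLim t
  obtain ⟨P, hP⟩ : ∃ P : Finset ℕ → Prop, P = fun S => Kn G γ f S = 2 ^ t := ⟨_, rfl⟩
  obtain ⟨C, hC1, hkey⟩ := hkeyc
  obtain ⟨dB, CB, XB, hdB, hbad⟩ := hB hS hM G Z hO hHal
  obtain ⟨dI, CI, XI, hdI, hfew'⟩ := hF' hS hM G hO
  obtain ⟨c, X₀, hc, hlow⟩ := hLo hM hCh G R hO hR
  have hdp := dl_pos hO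
  rw [Metric.tendsto_nhds]
  intro ε hε
  obtain ⟨K, hK⟩ := exists_pow_lt_of_lt_one (show (0 : ℝ) < ε / 16 by linarith)
    (show (1 / 2 : ℝ) < 1 by norm_num)
  set A : ℝ := 2 ^ ((t + K + 2) ^ 2 + 2) * (1 + 2 ^ G.Q) with hA
  have hA0 : 0 < A := by positivity
  obtain ⟨V, hV⟩ := exists_pow_lt_of_lt_one (show (0 : ℝ) < ε / (4 * A) by positivity)
    (show (1 / 2 : ℝ) < 1 by norm_num)
  have hM0 : 4 * (1 / 2 : ℝ) ^ K + 2 ^ ((t + K + 2) ^ 2 + 2) * ((1 + 2 ^ G.Q) * (1 / 2 : ℝ) ^ V) ≤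
      ε / 2 := by
    have g1 : A * (1 / 2 : ℝ) ^ V ≤ ε / 4 := by
      have g2 := mul_le_mul_of_nonneg_left hV.le hA0.le
      have g3 : A * (ε / (4 * A)) = ε / 4 := by field_simp
      linarith
    have g4 : 2 ^ ((t + K + 2) ^ 2 + 2) * ((1 + 2 ^ G.Q) * (1 / 2 : ℝ) ^ V) = A * (1 / 2 : ℝ) ^ V := by
      rw [hA]
      ring
    rw [g4]
    linarith
  set M : ℝ := 4 * (1 / 2 : ℝ) ^ K + 2 ^ ((t + K + 2) ^ 2 + 2) * ((1 + 2 ^ G.Q) * (1 / 2 : ℝ) ^ V)
    with hMdef
  have hMnn : 0 ≤ M := by positivity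
  obtain ⟨dF, CF, XF, hdF, hfew⟩ := hF hS hM G V hO hr
  have s1 := sml_many hO (t := 1 - dl G) (by linarith) hC
  have s2 := sml_cut hO (t := 1 - dl G) (by linarith) hC
  have s3 := sml_coll hO (t := 1 - dl G) (by linarith) hC
  have s4 := sml_rpow (t := 1 - dl G) (by linarith) hfew
  have s4' := sml_rpow (t := 1 - dl G) (by linarith) hfew'
  have s5 := sml_rpow (t := 1 - dl G) (by linarith) hbad
  have s6 := sml_main hC1 G.Q (t := 1 - dl G) (by linarith)
  have s := sml_add (sml_add (sml_add (sml_add (sml_add (sml_add s1 s2) s3) s4) s4') s5) s6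
  have hδ : (0 : ℝ) < c * ε / 4 := by positivity
  filter_upwards [s (c * ε / 4) hδ, ev_eL 1, eventually_ge_atTop X₀] with X hX hl hX0
  have hl0 : 0 < eL X := by linarith
  have hlo := hlow X hX0
  have e00 : (-1 + dl G : ℝ) = -(1 - dl G) := by ring
  rw [e00, rpow_eL hl0] at hlo
  have hXp := X_pos hl0
  have hXp' : (0 : ℝ) < X := by exact_mod_cast hXp
  have hSpos : (0 : ℝ) < ((SP G R X).card : ℝ) := by
    refine lt_of_lt_of_le ?_ hlo
    positivity
  have hN : (HH X : ℝ) * Real.log X < NN X := by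
    unfold NN
    push_cast
    exact Nat.lt_floor_add_one _
  have hmain := hkey G γ Z f R t K X (zz X) (HH X) (kk X) V (NN X) (kap C X) hO hGa hXp
    (HH_pos hl0) (zz_pos hl) (kap_nonneg hC1 X) (kap_pow hC1 hl) hN
  set T := (RR G R X (zz X) (HH X) (kk X) V).filter fun S => Nd G Z (sm (zz X) S) (la (zz X) S)
    with hT
  have hTG : (RR G R X (zz X) (HH X) (kk X) V).filter
      (fun S => Nd G Z (sm (zz X) S) (la (zz X) S) ∧ Kn G γ f S = 2 ^ t) = T.filter P := by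
    rw [hT, filter_filter]
    exact filter_congr fun S _ => by rw [hP]
  rw [hTG] at hmain
  have hTS : T ⊆ SP G R X := (filter_subset _ _).trans (filter_subset _ _)
  have hRS : ((RR G R X (zz X) (HH X) (kk X) V).card : ℝ) ≤ ((SP G R X).card : ℝ) := by
    exact_mod_cast card_le_card (filter_subset _ _)
  have hcmp := cmp P T (SP G R X) hTS (et t) het.1 het.2
  have hout : ((SP G R X \ T).card : ℝ) ≤
      (((((SS G X).filter fun S => kk X < S.card).card : ℝ) +
      (((SS G X).filter fun S => S.card ≤ kk X ∧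
        X < (∏ p ∈ sm (zz X) S, p) * ∏ p ∈ la (zz X) S, XX (HH X) (jj (HH X) p)).card : ℝ) +
      (((SS G X).filter fun S => ¬ Set.InjOn (jj (HH X)) (la (zz X) S : Set ℕ)).card : ℝ) +
      (((SS G X).filter fun S => ((la (zz X) S).filter fun p => Hc G p ∧ p % 4 = 3).card ≤
        2 * (sm (zz X) S).card + V).card : ℝ)) +
      (((SS G X).filter fun S => ∀ p ∈ la (zz X) S, Hc G p).card : ℝ)) +
      (((SS G X).filter fun S => S.card ≤ kk X ∧ ¬ Nd G Z (sm (zz X) S) (la (zz X) S)).card : ℝ) := by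
    have g := card_le_card (out_sub G Z R X (zz X) (HH X) (kk X) V)
    rw [← hT] at g
    have g2 := (g.trans (card_union_le _ _)).trans (Nat.add_le_add_right ((card_union_le _ _).trans
      (Nat.add_le_add_right ((card_union_le _ _).trans
      (Nat.add_le_add_right ((card_union_le _ _).trans
      (Nat.add_le_add_right (card_union_le _ _) _)) _)) _)) _)
    exact_mod_cast g2
  have htot : |(((SP G R X).filter P).card : ℝ) - et t * ((SP G R X).card : ℝ)| ≤
      M * ((SP G R X).card : ℝ) +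
        c * ε / 4 * (X * Real.exp (-(1 - dl G) * eL X)) := by
    have g1 : M * ((RR G R X (zz X) (HH X) (kk X) V).card : ℝ) ≤
        M * ((SP G R X).card : ℝ) := mul_le_mul_of_nonneg_left hRS hMnn
    linarith
  rw [Real.dist_eq]
  have hg : ((SP G R X).filter fun S => Kn G γ f S = 2 ^ t) = (SP G R X).filter P :=
    filter_congr fun S _ => by rw [hP]
  have e3 : (((SP G R X).filter fun S => Kn G γ f S = 2 ^ t).card : ℝ) / ((SP G R X).card : ℝ) - et t =
      ((((SP G R X).filter P).card : ℝ) - et t * ((SP G R X).card : ℝ)) /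
        ((SP G R X).card : ℝ) := by
    rw [hg]
    field_simp
  rw [e3, abs_div, abs_of_pos hSpos, div_lt_iff₀ hSpos]
  refine lt_of_le_of_lt htot ?_
  have g2 : c * ε / 4 * (X * Real.exp (-(1 - dl G) * eL X)) ≤ ε / 4 * ((SP G R X).card : ℝ) := by
    calc c * ε / 4 * (X * Real.exp (-(1 - dl G) * eL X)) =
          ε / 4 * (c * X * Real.exp (-(1 - dl G) * eL X)) := by ring
      _ ≤ _ := mul_le_mul_of_nonneg_left hlo (by linarith)
  have g3 : M * ((SP G R X).card : ℝ) ≤ ε / 2 * ((SP G R X).card : ℝ) := by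
    gcongr
  have g4 : 0 < ε * ((SP G R X).card : ℝ) := by positivity
  linarith

end Pool.Agent.U44.GZ
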